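import Pool.Agent.H798.BV.Stm5
import Pool.Agent.H190.BV.Ai1

set_option autoImplicit false

/-!
# MP_172a45_an: the formal lemma `S_FL`

The majorant calculus (`Maj`) is the one of `Pool/Agent/H190/BV/Ai1.lean` (helper190).
-/

open PowerSeries Finset

namespace Pool.Agent.H48.BV
open Pool.Agent.H798.BV
open Pool.Agent.H190.BV (Maj)

/-- the series of `1/(D - X)` -/
noncomputable def U (D : ℝ) : ℝ⟦X⟧ := PowerSeries.mk (fun n => (1 / D) ^ (n + 1))

theorem U_mul {D : ℝ} (hD : D ≠ 0) : (C D - X) * U D = 1 := by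
  ext n
  rw [sub_mul, map_sub, coeff_C_mul]
  rcases n with _ | n
  · simp [U, hD]
  · rw [coeff_succ_X_mul, PowerSeries.coeff_one, if_neg (by omega)]
    simp only [U, coeff_mk]
    rw [pow_succ (1 / D) (n + 1)]
    field_simp
    ring

theorem deriv_U {D : ℝ} (hD : D ≠ 0) : derivative ℝ (U D) = U D * U D := by
  have h1 := U_mul hD
  have h2 := congrArg (derivative ℝ) h1
  rw [Derivation.leibniz, map_sub, derivative_C, derivative_X, Derivation.map_one_eq_zero] at h2
  simp only [smul_eq_mul] at h2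
  linear_combination (U D) * h2 - (derivative ℝ (U D)) * h1

theorem U_sub {D μ : ℝ} (hD : D ≠ 0) (hμ : D - μ ≠ 0) :
    U (D - μ) = U D + C μ * (U D * U (D - μ)) := by
  have h1 := U_mul hD
  have h2 := U_mul hμ
  rw [map_sub] at h2
  linear_combination (U D) * h2 - (U (D - μ)) * h1

/-- The solution of `h = g + c v h` is majorised by the solution of `H = W + |c| V H`. -/
theorem solve {g v h : ℂ⟦X⟧} {W V H : ℝ⟦X⟧} (c : ℂ) (hg : Maj g W) (hv : Maj v V)
    (hV0 : ‖c‖ * coeff 0 V < 1) (e1 : h = g + C c * (v * h)) (e2 : H = W + C ‖c‖ * (V * H)) :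
    Maj h H := by
  intro n
  induction n using Nat.strong_induction_on with
  | _ n ih =>
    have hmem : ((0, n) : ℕ × ℕ) ∈ Finset.HasAntidiagonal.antidiagonal n := by simp
    have k1 : coeff n h = coeff n g + c * (coeff 0 v * coeff n h +
        ∑ p ∈ (Finset.HasAntidiagonal.antidiagonal n).erase (0, n), coeff p.1 v * coeff p.2 h) := by
      have h1 := congrArg (coeff n) e1
      rw [map_add, coeff_C_mul, coeff_mul, ← Finset.add_sum_erase _ _ hmem] at h1
      exact h1
    have k2 : coeff n H = coeff n W + ‖c‖ * (coeff 0 V * coeff n H +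
        ∑ p ∈ (Finset.HasAntidiagonal.antidiagonal n).erase (0, n), coeff p.1 V * coeff p.2 H) := by
      have h1 := congrArg (coeff n) e2
      rw [map_add, coeff_C_mul, coeff_mul, ← Finset.add_sum_erase _ _ hmem] at h1
      exact h1
    set Rc := ∑ p ∈ (Finset.HasAntidiagonal.antidiagonal n).erase (0, n),
      coeff p.1 v * coeff p.2 h with hRc
    set Rr := ∑ p ∈ (Finset.HasAntidiagonal.antidiagonal n).erase (0, n),
      coeff p.1 V * coeff p.2 H with hRr
    have hR : ‖Rc‖ ≤ Rr := by
      refine (norm_sum_le _ _).trans (Finset.sum_le_sum fun p hp => ?_)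
      rw [norm_mul]
      obtain ⟨hne, hp'⟩ := Finset.mem_erase.1 hp
      have hp'' : p.1 + p.2 = n := Finset.HasAntidiagonal.mem_antidiagonal.1 hp'
      have hlt : p.2 < n := by
        rcases Nat.eq_zero_or_pos p.1 with h0 | h0
        · exact absurd (Prod.ext h0 (by omega)) hne
        · omega
      exact mul_le_mul (hv _) (ih _ hlt) (norm_nonneg _) (hv.nonneg _)
    have h3 : ‖coeff n h‖ - ‖c * (coeff 0 v * coeff n h)‖ ≤ ‖coeff n g + c * Rc‖ := by
      have h4 : coeff n h - c * (coeff 0 v * coeff n h) = coeff n g + c * Rc := by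
        linear_combination k1
      rw [← h4]
      exact norm_sub_norm_le _ _
    have h5 : ‖coeff n g + c * Rc‖ ≤ coeff n W + ‖c‖ * Rr := by
      refine (norm_add_le _ _).trans (add_le_add (hg n) ?_)
      rw [norm_mul]
      exact mul_le_mul_of_nonneg_left hR (norm_nonneg _)
    have h6 : ‖c * (coeff 0 v * coeff n h)‖ ≤ ‖c‖ * coeff 0 V * ‖coeff n h‖ := by
      rw [norm_mul, norm_mul, mul_assoc]
      exact mul_le_mul_of_nonneg_left (mul_le_mul_of_nonneg_right (hv 0) (norm_nonneg _))
        (norm_nonneg _)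
    have h7 : ‖coeff n h‖ * (1 - ‖c‖ * coeff 0 V) ≤ coeff n H * (1 - ‖c‖ * coeff 0 V) := by
      nlinarith
    exact le_of_mul_le_mul_right h7 (by linarith)

theorem fl {K : ℕ} (l : Fin K → ℂ) (B : Finset (Fin K)) : ∀ (f u : ℂ⟦X⟧) (D : ℝ), 0 < D →
    derivative ℂ f = -(u * f) → (∀ j, ‖coeff j u‖ ≤ (1 / D) ^ (j + 1)) →
    ∑ k ∈ B, ‖l k‖ < D →
    ‖coeff 0 f‖ * (1 - (∑ k ∈ B, ‖l k‖) / D) ≤
      ‖∑ S ∈ B.powerset, (∏ k ∈ S, l k) * ((S.card.factorial : ℂ) * coeff S.card f)‖ := by
  induction B using Finset.induction_on with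
  | empty =>
    intro f u D hD hf hu hs
    simp
  | insert k B hk ih =>
    intro f u D hD hf hu hs
    rw [Finset.sum_insert hk] at hs ⊢
    set c := l k with hc
    set x := ∑ k ∈ B, ‖l k‖ with hx
    have hx0 : 0 ≤ x := Finset.sum_nonneg fun _ _ => norm_nonneg _
    have hc0 : 0 ≤ ‖c‖ := norm_nonneg _
    have hD' : 0 < D - ‖c‖ := by linarith
    have hu0 : ‖coeff 0 u‖ ≤ 1 / D := by
      have := hu 0
      simpa using this
    have hcD : ‖c‖ * (1 / D) < 1 := by
      rw [mul_one_div, div_lt_one hD]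
      linarith
    have hcu : ‖c * coeff 0 u‖ ≤ ‖c‖ * (1 / D) := by
      rw [norm_mul]
      exact mul_le_mul_of_nonneg_left hu0 hc0
    have hinv : (1 - C c * u) * (1 - C c * u)⁻¹ = 1 := by
      apply PowerSeries.mul_inv_cancel
      rw [map_sub, map_mul, constantCoeff_one, constantCoeff_C, ← coeff_zero_eq_constantCoeff_apply]
      intro h0
      have h1 : c * coeff 0 u = 1 := (sub_eq_zero.1 h0).symm
      rw [h1, norm_one] at hcu
      linarith
    set h : ℂ⟦X⟧ := derivative ℂ u * (1 - C c * u)⁻¹ with hh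
    have e1 : h = derivative ℂ u + C c * (u * h) := by
      have h1 : (1 - C c * u) * h = derivative ℂ u := by
        rw [hh]; linear_combination (derivative ℂ u) * hinv
      linear_combination h1
    have huM : Maj u (U D) := by
      intro n
      simp only [U, coeff_mk]
      exact hu n
    have hH : Maj h (U D * U (D - ‖c‖)) := by
      refine solve c (W := U D * U D) (V := U D) ?_ huM ?_ e1 ?_
      · rw [← deriv_U hD.ne']
        exact huM.deriv
      · simp only [U, coeff_mk]
        simpa using hcD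
      · have := U_sub (μ := ‖c‖) hD.ne' hD'.ne'
        linear_combination (U D) * this
    set f' : ℂ⟦X⟧ := f - C c * (u * f) with hf'
    set u' : ℂ⟦X⟧ := u + C c * h with hu'
    have hf'd : derivative ℂ f' = -(u' * f') := by
      rw [hf', map_sub, Derivation.leibniz, derivative_C, Derivation.leibniz]
      simp only [smul_eq_mul, mul_zero, add_zero]
      linear_combination (1 - C c * u) * hf + (C c * f) * e1
    have hu'm : ∀ j, ‖coeff j u'‖ ≤ (1 / (D - ‖c‖)) ^ (j + 1) := by
      have h1 : Maj u' (U D + C ‖c‖ * (U D * U (D - ‖c‖))) := huM.add (hH.cmul c)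
      rw [← U_sub hD.ne' hD'.ne'] at h1
      intro j
      have h2 := h1 j
      simpa only [U, coeff_mk] using h2
    have hih := ih f' u' (D - ‖c‖) hD' hf'd hu'm (by linarith)
    have hff : f' = f + C c * derivative ℂ f := by
      rw [hf', hf]
      ring
    have hsum : ∑ S ∈ (insert k B).powerset, (∏ k ∈ S, l k) *
        ((S.card.factorial : ℂ) * coeff S.card f) =
        ∑ S ∈ B.powerset, (∏ k ∈ S, l k) * ((S.card.factorial : ℂ) * coeff S.card f') := by
      rw [Finset.sum_powerset_insert hk, ← Finset.sum_add_distrib]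
      refine Finset.sum_congr rfl fun S hS => ?_
      have hkS : k ∉ S := fun h => hk (Finset.mem_powerset.1 hS h)
      rw [Finset.prod_insert hkS, Finset.card_insert_of_notMem hkS, hff, map_add, coeff_C_mul,
        coeff_derivative, Nat.factorial_succ, ← hc]
      push_cast
      ring
    rw [hsum]
    refine le_trans ?_ hih
    have h0 : coeff 0 f' = coeff 0 f * (1 - c * coeff 0 u) := by
      rw [hf', map_sub, coeff_C_mul, coeff_zero_eq_constantCoeff_apply,
        coeff_zero_eq_constantCoeff_apply, coeff_zero_eq_constantCoeff_apply, map_mul]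
      ring
    have h1 : 1 - ‖c‖ * (1 / D) ≤ ‖1 - c * coeff 0 u‖ := by
      have := norm_sub_norm_le (1 : ℂ) (c * coeff 0 u)
      rw [norm_one] at this
      linarith
    have h2 : 0 ≤ 1 - x / (D - ‖c‖) := by
      rw [sub_nonneg, div_le_one hD']
      linarith
    rw [h0, norm_mul, mul_assoc]
    refine mul_le_mul_of_nonneg_left ?_ (norm_nonneg _)
    calc 1 - (‖c‖ + x) / D = (1 - ‖c‖ * (1 / D)) * (1 - x / (D - ‖c‖)) := by
          field_simp
          ring
      _ ≤ ‖1 - c * coeff 0 u‖ * (1 - x / (D - ‖c‖)) := mul_le_mul_of_nonneg_right h1 h2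

/-- **(FL)** -/
theorem t_FL : S_FL := by
  intro K l B f u D hD hf hu hs
  exact fl l B f u D hD hf hu hs

end Pool.Agent.H48.BV
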